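import Mathlib

set_option autoImplicit false

namespace Pool.Agent.Results.MP_d395f7_lc.Q1

open FirstOrder FirstOrder.Language Polynomial

section Formulas

variable {α : Type}

abbrev Tm (α : Type) (n : ℕ) : Type := Language.ring.Term (α ⊕ Fin n)
abbrev Fm (α : Type) (n : ℕ) : Type := Language.ring.BoundedFormula α n

def up {n : ℕ} (t : Tm α n) : Tm α (n + 1) := t.relabel (Sum.map id Fin.castSucc)
def lst {n : ℕ} : Tm α (n + 1) := Term.var (Sum.inr (Fin.last n))

def dvdF {n : ℕ} (s f : Tm α n) : Fm α n := ∃' (up f =' (up s * lst))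
def cstF {n : ℕ} (a : Tm α n) : Fm α n := (a =' 0) ⊔ dvdF a 1
def rootF {n : ℕ} (t a f : Tm α n) : Fm α n := cstF a ⊓ dvdF (t + -a) f
def sqfF {n : ℕ} (t f : Tm α n) : Fm α n :=
  ∀' (cstF lst ⟹ ∼(dvdF ((up t + -lst) * (up t + -lst)) (up f)))
def mapsF {n : ℕ} (t h f g : Tm α n) : Fm α n :=
  ∀' (rootF (up t) lst (up f) ⟹
    ∃' (rootF (up (up t)) lst (up (up g)) ⊓ dvdF (up (up t) + -up lst) (up (up h) + -lst)))
def injF {n : ℕ} (t h f : Tm α n) : Fm α n :=
  ∀' ∀' ∀' (rootF (up (up (up t))) (up (up lst)) (up (up (up f))) ⟹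
    rootF (up (up (up t))) (up lst) (up (up (up f))) ⟹ cstF lst ⟹
    dvdF (up (up (up t)) + -up (up lst)) (up (up (up h)) + -lst) ⟹
    dvdF (up (up (up t)) + -up lst) (up (up (up h)) + -lst) ⟹ (up (up lst) =' up lst))
def leF {n : ℕ} (t f g : Tm α n) : Fm α n :=
  ∃' ∃' ∃' (cstF (up (up lst)) ⊓ cstF (up lst) ⊓
    sqfF (up (up (up t))) (up (up (up f)) + -up (up lst)) ⊓
    sqfF (up (up (up t))) (up (up (up g)) + -up lst) ⊓
    mapsF (up (up (up t))) lst (up (up (up f)) + -up (up lst)) (up (up (up g)) + -up lst) ⊓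
    injF (up (up (up t))) lst (up (up (up f)) + -up (up lst)))
def degF {n : ℕ} (t f g : Tm α n) : Fm α n :=
  ((f =' 0) ⊓ (g =' 0)) ⊔ (∼(f =' 0) ⊓ ∼(g =' 0) ⊓ leF t f g ⊓ leF t g f)

variable {R : Type} [CommRing R] [FirstOrder.Ring.CompatibleRing R]

@[simp] lemma r_up {n : ℕ} (t : Tm α n) (v : α → R) (xs : Fin n → R) (a : R) :
    (up t).realize (Sum.elim v (Fin.snoc xs a : Fin (n + 1) → R)) = t.realize (Sum.elim v xs) := by
  rw [up, Term.realize_relabel]
  congr 1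
  funext i
  rcases i with i | i <;> simp

@[simp] lemma r_lst {n : ℕ} (v : α → R) (xs : Fin n → R) (a : R) :
    (lst : Tm α (n + 1)).realize (Sum.elim v (Fin.snoc xs a : Fin (n + 1) → R)) = a := by
  simp [lst]

def Cst (a : R) : Prop := a = 0 ∨ a ∣ 1
def Root (t a f : R) : Prop := Cst a ∧ t - a ∣ f
def Sqf (t f : R) : Prop := ∀ a, Cst a → ¬ (t - a) * (t - a) ∣ f
def Maps (t h f g : R) : Prop := ∀ a, Root t a f → ∃ b, Root t b g ∧ t - a ∣ h - b
def Inj (t h f : R) : Prop := ∀ a a' b, Root t a f → Root t a' f → Cst b →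
  t - a ∣ h - b → t - a' ∣ h - b → a = a'
def Le (t f g : R) : Prop := ∃ c d h, Cst c ∧ Cst d ∧ Sqf t (f - c) ∧ Sqf t (g - d) ∧
  Maps t h (f - c) (g - d) ∧ Inj t h (f - c)

variable {n : ℕ} (v : α → R) (xs : Fin n → R)

@[simp] lemma r_dvd (s f : Tm α n) : (dvdF s f).Realize v xs ↔
    s.realize (Sum.elim v xs) ∣ f.realize (Sum.elim v xs) := by
  simp [dvdF, Dvd.dvd]

@[simp] lemma r_cst (a : Tm α n) : (cstF a).Realize v xs ↔ Cst (a.realize (Sum.elim v xs)) := by
  simp [cstF, Cst]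

@[simp] lemma r_root (t a f : Tm α n) : (rootF t a f).Realize v xs ↔
    Root (t.realize (Sum.elim v xs)) (a.realize (Sum.elim v xs)) (f.realize (Sum.elim v xs)) := by
  simp [rootF, Root, sub_eq_add_neg]

@[simp] lemma r_sqf (t f : Tm α n) : (sqfF t f).Realize v xs ↔
    Sqf (t.realize (Sum.elim v xs)) (f.realize (Sum.elim v xs)) := by
  simp [sqfF, Sqf, sub_eq_add_neg]

@[simp] lemma r_maps (t h f g : Tm α n) : (mapsF t h f g).Realize v xs ↔
    Maps (t.realize (Sum.elim v xs)) (h.realize (Sum.elim v xs)) (f.realize (Sum.elim v xs))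
      (g.realize (Sum.elim v xs)) := by
  simp [mapsF, Maps, sub_eq_add_neg]

@[simp] lemma r_inj (t h f : Tm α n) : (injF t h f).Realize v xs ↔
    Inj (t.realize (Sum.elim v xs)) (h.realize (Sum.elim v xs)) (f.realize (Sum.elim v xs)) := by
  simp [injF, Inj, sub_eq_add_neg]

@[simp] lemma r_le (t f g : Tm α n) : (leF t f g).Realize v xs ↔
    Le (t.realize (Sum.elim v xs)) (f.realize (Sum.elim v xs)) (g.realize (Sum.elim v xs)) := by
  simp [leF, Le, sub_eq_add_neg, and_assoc]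

lemma r_deg (t f g : Tm α n) : (degF t f g).Realize v xs ↔
    (f.realize (Sum.elim v xs) = 0 ∧ g.realize (Sum.elim v xs) = 0) ∨
    (f.realize (Sum.elim v xs) ≠ 0 ∧ g.realize (Sum.elim v xs) ≠ 0 ∧
      Le (t.realize (Sum.elim v xs)) (f.realize (Sum.elim v xs)) (g.realize (Sum.elim v xs)) ∧
      Le (t.realize (Sum.elim v xs)) (g.realize (Sum.elim v xs)) (f.realize (Sum.elim v xs))) := by
  simp [degF, and_assoc]

end Formulas

lemma cst_iff (a : ℂ[X]) : Cst a ↔ ∃ z, a = C z := by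
  constructor
  · rintro (h | h)
    · exact ⟨0, by simp [h]⟩
    · obtain ⟨r, -, hr⟩ := Polynomial.isUnit_iff.1 (isUnit_of_dvd_one h)
      exact ⟨r, hr.symm⟩
  · rintro ⟨z, rfl⟩
    by_cases hz : z = 0
    · left; simp [hz]
    · right
      exact (Polynomial.isUnit_C.2 (Ne.isUnit hz)).dvd

lemma sqf_ne {f : ℂ[X]} (h : Sqf X f) : f ≠ 0 := by
  rintro rfl
  exact h 0 (Or.inl rfl) (dvd_zero _)

lemma sqf_card {f : ℂ[X]} (h : Sqf X f) : f.roots.toFinset.card = f.natDegree := by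
  have hnd : f.roots.Nodup := by
    rw [Multiset.nodup_iff_count_le_one]
    intro a
    rw [count_roots]
    by_contra hc
    have h2 : 2 ≤ rootMultiplicity a f := by omega
    have := (le_rootMultiplicity_iff (sqf_ne h)).1 h2
    rw [pow_two] at this
    exact h (C a) ((cst_iff _).2 ⟨a, rfl⟩) this
  rw [Multiset.toFinset_card_of_nodup hnd, IsAlgClosed.card_roots_eq_natDegree]

lemma deg_sub (f : ℂ[X]) (z : ℂ) : (f - C z).natDegree = f.natDegree := natDegree_sub_C

lemma exists_sqf (f : ℂ[X]) (hf : f ≠ 0) : ∃ z, Sqf X (f - C z) := by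
  by_cases hd : derivative f = 0
  · refine ⟨0, fun a ha h => ?_⟩
    obtain ⟨w, rfl⟩ := (cst_iff _).1 ha
    have h0 : f.natDegree = 0 := Polynomial.derivative_eq_zero.1 hd
    rw [map_zero, sub_zero] at h
    have := natDegree_le_of_dvd h hf
    rw [natDegree_mul (X_sub_C_ne_zero w) (X_sub_C_ne_zero w), natDegree_X_sub_C] at this
    omega
  · obtain ⟨z, hz⟩ := Infinite.exists_notMem_finset
      ((derivative f).roots.toFinset.image (fun w => f.eval w))
    refine ⟨z, fun a ha h => ?_⟩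
    obtain ⟨w, rfl⟩ := (cst_iff _).1 ha
    obtain ⟨q, hq⟩ := h
    apply hz
    rw [Finset.mem_image]
    refine ⟨w, ?_, ?_⟩
    · rw [Multiset.mem_toFinset, mem_roots hd, IsRoot.def]
      have := congrArg (fun p => eval w (derivative p)) hq
      simpa using this
    · have := congrArg (eval w) hq
      simpa [sub_eq_zero] using this

lemma root_iff (a f : ℂ[X]) : Root X a f ↔ ∃ z, a = C z ∧ f.eval z = 0 := by
  constructor
  · rintro ⟨h1, h2⟩
    obtain ⟨z, rfl⟩ := (cst_iff _).1 h1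
    exact ⟨z, rfl, dvd_iff_isRoot.1 h2⟩
  · rintro ⟨z, rfl, h⟩
    exact ⟨(cst_iff _).2 ⟨z, rfl⟩, dvd_iff_isRoot.2 h⟩

lemma dv (z w : ℂ) (h : ℂ[X]) : X - C z ∣ h - C w ↔ h.eval z = w := by
  rw [dvd_iff_isRoot, IsRoot.def]
  simp [sub_eq_zero]

lemma le_iff (f g : ℂ[X]) (hf : f ≠ 0) (hg : g ≠ 0) : Le X f g ↔ f.natDegree ≤ g.natDegree := by
  constructor
  · rintro ⟨c, d, h, hc, hd, s1, s2, hm, hi⟩
    obtain ⟨c, rfl⟩ := (cst_iff _).1 hc
    obtain ⟨d, rfl⟩ := (cst_iff _).1 hd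
    rw [← deg_sub f c, ← deg_sub g d, ← sqf_card s1, ← sqf_card s2]
    refine Finset.card_le_card_of_injOn (fun z => h.eval z) ?_ ?_
    · intro z hz
      rw [Finset.mem_coe, Multiset.mem_toFinset, mem_roots (sqf_ne s1)] at hz
      obtain ⟨b, hb1, hb2⟩ := hm (C z) ((root_iff _ _).2 ⟨z, rfl, hz⟩)
      obtain ⟨w, rfl, hw⟩ := (root_iff _ _).1 hb1
      rw [Finset.mem_coe, Multiset.mem_toFinset, mem_roots (sqf_ne s2)]
      change (g - C d).IsRoot (h.eval z)
      rw [(dv _ _ _).1 hb2]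
      exact hw
    · intro z hz z' hz' e
      rw [Finset.mem_coe, Multiset.mem_toFinset, mem_roots (sqf_ne s1)] at hz hz'
      exact C_injective (hi (C z) (C z') (C (h.eval z)) ((root_iff _ _).2 ⟨z, rfl, hz⟩)
        ((root_iff _ _).2 ⟨z', rfl, hz'⟩) ((cst_iff _).2 ⟨_, rfl⟩) ((dv _ _ _).2 rfl)
        ((dv _ _ _).2 e.symm))
  · intro hle
    obtain ⟨c, s1⟩ := exists_sqf f hf
    obtain ⟨d, s2⟩ := exists_sqf g hg
    rw [← deg_sub f c, ← deg_sub g d, ← sqf_card s1, ← sqf_card s2] at hle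
    obtain ⟨e, he1, he2⟩ := Set.Finite.exists_injOn_of_encard_le
      (s := ((f - C c).roots.toFinset : Set ℂ)) (t := ((g - C d).roots.toFinset : Set ℂ))
      (Finset.finite_toSet _) (by
        rw [Set.encard_coe_eq_coe_finsetCard, Set.encard_coe_eq_coe_finsetCard]
        exact_mod_cast hle)
    have hev : ∀ z ∈ (f - C c).roots.toFinset,
        (Lagrange.interpolate (f - C c).roots.toFinset id e).eval z = e z := by
      intro z hz
      exact Lagrange.eval_interpolate_at_node e (Set.injOn_id _) hz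
    have hmem : ∀ z, (f - C c).eval z = 0 → z ∈ (f - C c).roots.toFinset := by
      intro z hz
      rw [Multiset.mem_toFinset, mem_roots (sqf_ne s1)]
      exact hz
    refine ⟨C c, C d, Lagrange.interpolate (f - C c).roots.toFinset id e,
      (cst_iff _).2 ⟨_, rfl⟩, (cst_iff _).2 ⟨_, rfl⟩, s1, s2, ?_, ?_⟩
    · intro a ha
      obtain ⟨z, rfl, hz⟩ := (root_iff _ _).1 ha
      refine ⟨C (e z), (root_iff _ _).2 ⟨_, rfl, ?_⟩, (dv _ _ _).2 (hev z (hmem z hz))⟩
      have := he1 (hmem z hz)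
      rw [Set.mem_preimage, Finset.mem_coe, Multiset.mem_toFinset, mem_roots (sqf_ne s2)] at this
      exact this
    · intro a a' b ha ha' hb h1 h2
      obtain ⟨z, rfl, hz⟩ := (root_iff _ _).1 ha
      obtain ⟨z', rfl, hz'⟩ := (root_iff _ _).1 ha'
      obtain ⟨w, rfl⟩ := (cst_iff _).1 hb
      rw [dv, hev _ (hmem _ hz)] at h1
      rw [dv, hev _ (hmem _ hz')] at h2
      rw [he2 (hmem _ hz) (hmem _ hz') (h1.trans h2.symm)]

theorem result :
    @Set.Definable₂ ℂ[X] ({X} : Set ℂ[X]) Language.ring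
      (FirstOrder.Ring.compatibleRingOfRing ℂ[X]).toStructure
      {p : ℂ[X] × ℂ[X] | p.1.degree = p.2.degree} := by
  let _ := FirstOrder.Ring.compatibleRingOfRing ℂ[X]
  rw [Set.Definable₂, Set.definable_iff_exists_formula_sum]
  refine ⟨degF (Term.var (Sum.inl (Sum.inl ⟨X, rfl⟩))) (Term.var (Sum.inl (Sum.inr 0)))
    (Term.var (Sum.inl (Sum.inr 1))), ?_⟩
  ext v
  simp only [Set.mem_ofPred_eq, Formula.Realize, r_deg, Term.realize_var, Sum.elim_inl,
    Sum.elim_inr]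
  by_cases h0 : v 0 = 0
  · simp only [h0, degree_zero, true_and, ne_eq, not_true_eq_false, false_and, or_false]
    rw [eq_comm, degree_eq_bot]
  by_cases h1 : v 1 = 0
  · simp [h0, h1]
  rw [le_iff _ _ h0 h1, le_iff _ _ h1 h0, degree_eq_natDegree h0, degree_eq_natDegree h1]
  simp [h0, h1, le_antisymm_iff]

end Pool.Agent.Results.MP_d395f7_lc.Q1
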